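import Mathlib

/-!
# The v-number of a squarefree monomial ideal can exceed the depth by any amount

For every field `K` and every `d ≥ 2` there is a squarefree monomial ideal `I` with
`depth (R / I) ≤ 1` and `v(I) = d`: the Stanley–Reisner ideal of the disjoint union of the
boundaries of two simplices with `d + 1` vertices each. The complex is disconnected, so the depth
is at most one; every face with fewer than `d` vertices lies in at least two facets, so the
v-number is `d`.
-/

set_option autoImplicit false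
set_option linter.unusedSectionVars false

namespace Pool.Agent.Results.MP_d06a13_ag.ExceedsDepth

open MvPolynomial

/-- The depth of `K[x_1, …, x_n] ⧸ J`: the supremum of the lengths of the regular sequences on
`K[x_1, …, x_n] ⧸ J` all of whose terms lie in `𝔪 = (x_1, …, x_n)`. -/
noncomputable def depthQuot {K : Type*} [Field K] {n : ℕ}
    (J : Ideal (MvPolynomial (Fin n) K)) : ℕ∞ :=
  ⨆ (rs : List (MvPolynomial (Fin n) K))
    (_ : (∀ x ∈ rs, x ∈ Ideal.span (Set.range (X : Fin n → MvPolynomial (Fin n) K))) ∧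
      RingTheory.Sequence.IsRegular (MvPolynomial (Fin n) K ⧸ J) rs), (rs.length : ℕ∞)

/-- `I` is a squarefree monomial ideal: a proper ideal generated by squarefree monomials. -/
def IsSquarefreeMonomialIdeal {K : Type*} [Field K] {n : ℕ}
    (I : Ideal (MvPolynomial (Fin n) K)) : Prop :=
  I ≠ ⊤ ∧ ∃ E : Set (Fin n →₀ ℕ), (∀ e ∈ E, ∀ i, e i ≤ 1) ∧
    I = Ideal.span ((fun e => monomial e (1 : K)) '' E)

/-- The v-number of `I`: the least degree `d` of a form `f` such that the colon ideal
`(I : f) = {g | g f ∈ I}` is an associated prime of `I`. -/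
noncomputable def vNumber {K : Type*} [Field K] {n : ℕ}
    (I : Ideal (MvPolynomial (Fin n) K)) : ℕ∞ :=
  ⨅ (d : ℕ) (_ : ∃ f : MvPolynomial (Fin n) K, f.IsHomogeneous d ∧
    ∃ p ∈ associatedPrimes (MvPolynomial (Fin n) K) (MvPolynomial (Fin n) K ⧸ I),
      ∀ g, g ∈ p ↔ g * f ∈ I), (d : ℕ∞)

section general

variable {K : Type*} [Field K] {σ : Type*} [Fintype σ] [DecidableEq σ] (A : σ → Prop)
  [DecidablePred A]

/-- exponents of the generators -/
def gens : Set (σ →₀ ℕ) :=
  {Finsupp.indicator (Finset.univ.filter A) fun _ _ => 1,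
    Finsupp.indicator (Finset.univ.filter fun i => ¬ A i) fun _ _ => 1} ∪
  {e | ∃ i j, A i ∧ ¬ A j ∧ e = Finsupp.single i 1 + Finsupp.single j 1}

/-- the monomials of the ideal -/
def Bad (a : σ →₀ ℕ) : Prop :=
  (∀ i, A i → a i ≠ 0) ∨ (∀ i, ¬ A i → a i ≠ 0) ∨ ∃ i j, A i ∧ ¬ A j ∧ a i ≠ 0 ∧ a j ≠ 0

variable (K) in
/-- the ideal -/
noncomputable def ideal : Ideal (MvPolynomial σ K) :=
  Ideal.span ((fun e => monomial e (1 : K)) '' gens A)

lemma gens_le (e : σ →₀ ℕ) (he : e ∈ gens A) (i : σ) : e i ≤ 1 := by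
  rcases he with (rfl | rfl) | ⟨i', j, hi, hj, rfl⟩
  · rw [Finsupp.indicator_apply]; split_ifs <;> simp
  · rw [Finsupp.indicator_apply]; split_ifs <;> simp
  · rw [Finsupp.add_apply, Finsupp.single_apply, Finsupp.single_apply]
    by_cases h : i' = i
    · have : j ≠ i := by rintro rfl; exact hj (h ▸ hi)
      simp [h, this]
    · simp only [h, if_false, zero_add]; split_ifs <;> simp

lemma mem_ideal (f : MvPolynomial σ K) : f ∈ ideal K A ↔ ∀ a ∈ f.support, Bad A a := by
  unfold ideal
  rw [mem_ideal_span_monomial_image]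
  refine forall₂_congr fun a _ => ?_
  constructor
  · rintro ⟨e, (rfl | rfl) | ⟨i, j, hi, hj, rfl⟩, hle⟩
    · left
      intro i hi h0
      have := hle i
      rw [Finsupp.indicator_apply, dif_pos (by simpa using hi), h0] at this
      omega
    · right; left
      intro i hi h0
      have := hle i
      rw [Finsupp.indicator_apply, dif_pos (by simpa using hi), h0] at this
      omega
    · right; right
      refine ⟨i, j, hi, hj, ?_, ?_⟩
      · intro h0
        have := hle i
        rw [Finsupp.add_apply, Finsupp.single_eq_same, h0] at this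
        omega
      · intro h0
        have := hle j
        rw [Finsupp.add_apply, Finsupp.single_eq_same, h0] at this
        omega
  · rintro (h | h | ⟨i, j, hi, hj, h1, h2⟩)
    · refine ⟨_, Or.inl (Or.inl rfl), fun i => ?_⟩
      rw [Finsupp.indicator_apply]
      split_ifs with hi
      · exact Nat.one_le_iff_ne_zero.2 (h i (by simpa using hi))
      · exact Nat.zero_le _
    · refine ⟨_, Or.inl (Or.inr rfl), fun i => ?_⟩
      rw [Finsupp.indicator_apply]
      split_ifs with hi
      · exact Nat.one_le_iff_ne_zero.2 (h i (by simpa using hi))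
      · exact Nat.zero_le _
    · refine ⟨_, Or.inr ⟨i, j, hi, hj, rfl⟩, fun l => ?_⟩
      rw [Finsupp.add_apply, Finsupp.single_apply, Finsupp.single_apply]
      by_cases h : i = l
      · have : j ≠ l := by rintro rfl; exact hj (h ▸ hi)
        subst h
        simp only [if_true, this, if_false]
        omega
      · simp only [h, if_false, zero_add]
        split_ifs with h'
        · subst h'; omega
        · exact Nat.zero_le _

/-- the ideal only depends on the partition -/
lemma bad_compl (a : σ →₀ ℕ) : Bad (fun i => ¬ A i) a ↔ Bad A a := by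
  unfold Bad
  constructor
  · rintro (h | h | ⟨i, j, hi, hj, h1, h2⟩)
    · exact Or.inr (Or.inl h)
    · exact Or.inl fun i hi => h i (not_not.2 hi)
    · exact Or.inr (Or.inr ⟨j, i, not_not.1 hj, hi, h2, h1⟩)
  · rintro (h | h | ⟨i, j, hi, hj, h1, h2⟩)
    · exact Or.inr (Or.inl fun i hi => h i (not_not.1 hi))
    · exact Or.inl h
    · exact Or.inr (Or.inr ⟨j, i, hj, not_not.2 hi, h2, h1⟩)

/-! ### The v-number -/

lemma monomial_prod (S : Finset σ) :
    (∏ i ∈ S, X i : MvPolynomial σ K) = monomial (Finsupp.indicator S fun _ _ => 1) 1 := by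
  have h : (Finsupp.indicator S fun _ _ => 1 : σ →₀ ℕ) = ∑ i ∈ S, Finsupp.single i 1 := by
    rw [Finsupp.indicator_eq_sum_single]
  rw [h]
  classical
  induction S using Finset.induction_on with
  | empty => simp
  | insert a S ha ih =>
    rw [Finset.prod_insert ha, Finset.sum_insert ha, ih ?_, X, monomial_mul, one_mul]
    rw [Finsupp.indicator_eq_sum_single]

/-- lower bound, one side -/
lemma lower_aux {d e : ℕ} (hA : (Finset.univ.filter A).card = d + 1)
    (hB : ∃ j, ¬ A j) (f : MvPolynomial σ K) (hf : f.IsHomogeneous e)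
    (p : Ideal (MvPolynomial σ K)) (hp : p.IsPrime)
    (hpf : ∀ g, g ∈ p → g * f ∈ ideal K A) (hpf' : ∀ g, g * f ∈ ideal K A → g ∈ p)
    (a : σ →₀ ℕ) (ha : a ∈ f.support) (hbad : ¬ Bad A a) (hz : ∀ j, ¬ A j → a j = 0) :
    d ≤ e := by
  have h1 : (∏ i ∈ Finset.univ.filter A, X i : MvPolynomial σ K) ∈ p := by
    apply hpf'
    apply Ideal.mul_mem_right
    rw [monomial_prod]
    exact Ideal.subset_span ⟨_, Or.inl (Or.inl rfl), rfl⟩
  rw [Ideal.IsPrime.prod_mem_iff] at h1
  obtain ⟨k, hk, hkp⟩ := h1
  have hkA : A k := by simpa using hk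
  have h2 := (mem_ideal A _).1 (hpf _ hkp) (a + Finsupp.single k 1) (by
    rw [mem_support_iff, add_comm, coeff_X_mul]
    exact mem_support_iff.1 ha)
  have hdeg : a.degree = e := by
    have := hf (mem_support_iff.1 ha)
    rw [Finsupp.degree_eq_weight_one]
    exact this
  have hne : ∀ j, ¬ A j → (a + Finsupp.single k 1 : σ →₀ ℕ) j = 0 := by
    intro j hj
    have hkj : k ≠ j := fun h => hj (h ▸ hkA)
    rw [Finsupp.add_apply, hz j hj, Finsupp.single_apply, if_neg hkj, add_zero]
  rcases h2 with h2 | h2 | ⟨i, j, hi, hj, h3, h4⟩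
  · have h5 : ∀ i ∈ (Finset.univ.filter A).erase k, 1 ≤ a i := by
      intro i hi
      rw [Finset.mem_erase] at hi
      have := h2 i (by simpa using hi.2)
      rw [Finsupp.add_apply, Finsupp.single_apply, if_neg (Ne.symm hi.1), add_zero] at this
      omega
    have h6 : ((Finset.univ.filter A).erase k).card ≤ ∑ i ∈ (Finset.univ.filter A).erase k, a i := by
      rw [Finset.card_eq_sum_ones]
      exact Finset.sum_le_sum h5
    have h7 : ∑ i ∈ (Finset.univ.filter A).erase k, a i ≤ ∑ i, a i :=
      Finset.sum_le_sum_of_subset (Finset.subset_univ _)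
    rw [Finset.card_erase_of_mem hk, hA] at h6
    rw [Finsupp.degree_eq_sum] at hdeg
    omega
  · obtain ⟨j, hj⟩ := hB
    exact absurd (hne j hj) (h2 j hj)
  · exact absurd (hne j hj) h4

lemma lower {d e : ℕ} (hA : (Finset.univ.filter A).card = d + 1)
    (hB : (Finset.univ.filter fun i => ¬ A i).card = d + 1)
    (f : MvPolynomial σ K) (hf : f.IsHomogeneous e)
    (p : Ideal (MvPolynomial σ K)) (hp : p.IsPrime) (hpf : ∀ g, g ∈ p ↔ g * f ∈ ideal K A) :
    d ≤ e := by
  have hfI : f ∉ ideal K A := by
    intro h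
    apply hp.ne_top
    rw [Ideal.eq_top_iff_one, hpf, one_mul]
    exact h
  rw [mem_ideal] at hfI
  push Not at hfI
  obtain ⟨a, ha, hbad⟩ := hfI
  by_cases hz : ∀ j, ¬ A j → a j = 0
  · refine lower_aux A hA ?_ f hf p hp (fun g => (hpf g).1) (fun g => (hpf g).2) a ha hbad hz
    have : (Finset.univ.filter fun i => ¬ A i).Nonempty := by
      rw [← Finset.card_pos]; omega
    obtain ⟨j, hj⟩ := this
    exact ⟨j, by simpa using hj⟩
  · push Not at hz
    obtain ⟨j, hj, hj0⟩ := hz
    have hz' : ∀ i, ¬ ¬ A i → a i = 0 := by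
      intro i hi
      by_contra h0
      exact hbad (Or.inr (Or.inr ⟨i, j, not_not.1 hi, hj, h0, hj0⟩))
    have hI : ideal K (fun i => ¬ A i) = ideal K A := by
      ext g
      rw [mem_ideal, mem_ideal]
      exact forall₂_congr fun a _ => bad_compl A a
    refine lower_aux (fun i => ¬ A i) hB ?_ f hf p hp (fun g hg => ?_) (fun g hg => ?_) a ha ?_ hz'
    · have : (Finset.univ.filter A).Nonempty := by
        rw [← Finset.card_pos]; omega
      obtain ⟨i, hi⟩ := this
      exact ⟨i, by simpa using hi⟩
    · rw [hI]; exact (hpf g).1 hg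
    · rw [hI] at hg; exact (hpf g).2 hg
    · rw [bad_compl]; exact hbad

/-- ideals generated by variables are prime -/
lemma prime_span_X (S : Set σ) : (Ideal.span (X '' S : Set (MvPolynomial σ K))).IsPrime := by
  classical
  let φ : MvPolynomial σ K →ₐ[K] MvPolynomial σ K := aeval fun i => if i ∈ S then 0 else X i
  have h1 : ∀ g, g - φ g ∈ Ideal.span (X '' S : Set (MvPolynomial σ K)) := by
    intro g
    rw [← Ideal.Quotient.eq_zero_iff_mem, map_sub, sub_eq_zero]
    have : (Ideal.Quotient.mkₐ K (Ideal.span (X '' S : Set (MvPolynomial σ K)))).comp φ =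
        Ideal.Quotient.mkₐ K _ := by
      apply algHom_ext
      intro i
      rw [AlgHom.comp_apply]
      simp only [φ, aeval_X]
      split_ifs with h
      · rw [map_zero, eq_comm]
        exact Ideal.Quotient.eq_zero_iff_mem.2 (Ideal.subset_span ⟨i, h, rfl⟩)
      · rfl
    exact (DFunLike.congr_fun this g).symm
  have h2 : Ideal.span (X '' S : Set (MvPolynomial σ K)) = RingHom.ker φ := by
    apply le_antisymm
    · rw [Ideal.span_le]
      rintro _ ⟨i, hi, rfl⟩
      rw [SetLike.mem_coe, RingHom.mem_ker]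
      simp [φ, hi]
    · intro g hg
      rw [RingHom.mem_ker] at hg
      have := h1 g
      rwa [hg, sub_zero] at this
  rw [h2]
  exact RingHom.ker_isPrime _

/-- upper bound -/
lemma upper {d : ℕ} (hd : 2 ≤ d) (hA : (Finset.univ.filter A).card = d + 1)
    (hB : ∃ j, ¬ A j) :
    ∃ f : MvPolynomial σ K, f.IsHomogeneous d ∧ ∃ p : Ideal (MvPolynomial σ K), p.IsPrime ∧
      ∀ g, g ∈ p ↔ g * f ∈ ideal K A := by
  classical
  have : (Finset.univ.filter A).Nonempty := by
    rw [← Finset.card_pos]; omega
  obtain ⟨k, hk⟩ := this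
  have hkA : A k := by simpa using hk
  set S := (Finset.univ.filter A).erase k with hS
  have hSc : S.card = d := by rw [hS, Finset.card_erase_of_mem hk, hA]; rfl
  refine ⟨∏ i ∈ S, X i, ?_, Ideal.span (X '' {i | i ∉ S}), prime_span_X _, fun g => ?_⟩
  · have := IsHomogeneous.prod S (fun i => (X i : MvPolynomial σ K)) (fun _ => 1)
      (fun i _ => isHomogeneous_X K i)
    rwa [Finset.sum_const, smul_eq_mul, mul_one, hSc] at this
  · rw [mem_ideal_span_X_image, mem_ideal, monomial_prod]
    set b : σ →₀ ℕ := Finsupp.indicator S fun _ _ => 1 with hb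
    have hbS : ∀ i ∈ S, b i = 1 := fun i hi => by
      rw [hb, Finsupp.indicator_apply, dif_pos hi]
    have hbn : ∀ i, i ∉ S → b i = 0 := fun i hi => by
      rw [hb, Finsupp.indicator_apply, dif_neg hi]
    have key : ∀ a : σ →₀ ℕ, Bad A (a + b) ↔ ∃ i ∈ {i | i ∉ S}, a i ≠ 0 := by
      intro a
      constructor
      · rintro (h | h | ⟨i, j, hi, hj, h1, h2⟩)
        · refine ⟨k, by simp [hS], ?_⟩
          have := h k hkA
          rwa [Finsupp.add_apply, hbn k (by simp [hS]), add_zero] at this
        · obtain ⟨j, hj⟩ := hB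
          have hjS : j ∉ S := by simp [hS, hj]
          refine ⟨j, hjS, ?_⟩
          have := h j hj
          rwa [Finsupp.add_apply, hbn j hjS, add_zero] at this
        · have hjS : j ∉ S := by simp [hS, hj]
          refine ⟨j, hjS, ?_⟩
          rwa [Finsupp.add_apply, hbn j hjS, add_zero] at h2
      · rintro ⟨i, hi, hai⟩
        have hiS : i ∉ S := hi
        by_cases hAi : A i
        · have hik : i = k := by
            by_contra hne
            exact hiS (by simp [hS, hne, hAi])
          subst hik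
          left
          intro l hl
          rw [Finsupp.add_apply]
          by_cases hli : l = i
          · subst hli; omega
          · have : l ∈ S := by simp [hS, hli, hl]
            rw [hbS l this]; omega
        · right; right
          have : S.Nonempty := by rw [← Finset.card_pos]; omega
          obtain ⟨l, hl⟩ := this
          have hlA : A l := by
            rw [hS, Finset.mem_erase] at hl
            simpa using hl.2
          refine ⟨l, i, hlA, hAi, ?_, ?_⟩
          · rw [Finsupp.add_apply, hbS l hl]; omega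
          · rw [Finsupp.add_apply]; omega
    constructor
    · intro h a ha
      rw [mem_support_iff, coeff_mul_monomial'] at ha
      split_ifs at ha with hba
      · rw [mul_one] at ha
        have h1 := (key (a - b)).2 (h _ (mem_support_iff.2 ha))
        rwa [tsub_add_cancel_of_le hba] at h1
      · exact absurd rfl ha
    · intro h a ha
      refine (key a).1 (h (a + b) ?_)
      rw [mem_support_iff, coeff_mul_monomial, mul_one]
      exact mem_support_iff.1 ha

/-! ### The depth -/

/-- keep only the variables with `P` -/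
noncomputable def keep (P : σ → Prop) [DecidablePred P] : MvPolynomial σ K →ₐ[K] MvPolynomial σ K :=
  aeval fun i => if P i then X i else 0

lemma keep_monomial (P : σ → Prop) [DecidablePred P] (a : σ →₀ ℕ) (c : K) :
    keep P (monomial a c) = if ∀ i, a i ≠ 0 → P i then monomial a c else 0 := by
  unfold keep
  rw [aeval_monomial]
  split_ifs with h
  · rw [monomial_eq, algebraMap_eq]
    congr 1
    refine Finsupp.prod_congr fun i hi => ?_
    rw [if_pos (h i (Finsupp.mem_support_iff.1 hi))]
  · push Not at h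
    obtain ⟨i, hi, hP⟩ := h
    rw [Finsupp.prod, Finset.prod_eq_zero (Finsupp.mem_support_iff.2 hi), mul_zero]
    rw [if_neg hP, zero_pow hi]

lemma coeff_keep (P : σ → Prop) [DecidablePred P] (f : MvPolynomial σ K) (a : σ →₀ ℕ) :
    coeff a (keep P f) = if ∀ i, a i ≠ 0 → P i then coeff a f else 0 := by
  classical
  induction f using MvPolynomial.induction_on' with
  | monomial b c =>
    rw [keep_monomial]
    by_cases hab : b = a
    · subst hab
      split_ifs <;> simp
    · split_ifs <;> simp [coeff_monomial, hab]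
  | add p q hp hq =>
    rw [map_add, coeff_add, hp, hq, coeff_add]
    split_ifs <;> simp

/-- a polynomial without constant term is the sum of its two parts modulo the ideal -/
lemma decomp (f : MvPolynomial σ K) (hf : coeff 0 f = 0) :
    f - keep A f - keep (fun i => ¬ A i) f ∈ ideal K A := by
  rw [mem_ideal]
  intro a ha
  rw [mem_support_iff, coeff_sub, coeff_sub, coeff_keep, coeff_keep] at ha
  by_contra hbad
  apply ha
  by_cases h1 : ∀ i, a i ≠ 0 → A i
  · by_cases h2 : ∀ i, a i ≠ 0 → ¬ A i
    · have : a = 0 := by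
        ext i
        by_contra hi
        exact h2 i hi (h1 i hi)
      subst this
      simp [hf]
    · rw [if_pos h1, if_neg h2]; ring
  · by_cases h2 : ∀ i, a i ≠ 0 → ¬ A i
    · rw [if_neg h1, if_pos h2]; ring
    · push Not at h1 h2
      obtain ⟨j, hj, hjA⟩ := h1
      obtain ⟨i, hi, hiA⟩ := h2
      exact absurd (Or.inr (Or.inr ⟨i, j, hiA, hjA, hi, hj⟩)) hbad

/-- products of elements of the two sides vanish -/
lemma mixed (f g : MvPolynomial σ K) (hf : coeff 0 f = 0) (hg : coeff 0 g = 0) :
    keep A f * keep (fun i => ¬ A i) g ∈ ideal K A := by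
  classical
  rw [mem_ideal]
  intro a ha
  rw [mem_support_iff, coeff_mul] at ha
  obtain ⟨⟨b, c⟩, hbc, h⟩ := Finset.exists_ne_zero_of_sum_ne_zero ha
  rw [Finset.HasAntidiagonal.mem_antidiagonal] at hbc
  simp only at hbc h
  have hb := left_ne_zero_of_mul h
  have hc := right_ne_zero_of_mul h
  rw [coeff_keep] at hb hc
  split_ifs at hb with h1
  · split_ifs at hc with h2
    · have hb0 : b ≠ 0 := by rintro rfl; exact hb hf
      have hc0 : c ≠ 0 := by rintro rfl; exact hc hg
      obtain ⟨i, hi⟩ := DFunLike.ne_iff.1 hb0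
      obtain ⟨j, hj⟩ := DFunLike.ne_iff.1 hc0
      rw [Finsupp.coe_zero, Pi.zero_apply] at hi hj
      right; right
      refine ⟨i, j, h1 i hi, h2 j hj, ?_, ?_⟩
      · rw [← hbc, Finsupp.add_apply]; omega
      · rw [← hbc, Finsupp.add_apply]; omega
    · exact absurd rfl hc
  · exact absurd rfl hb

/-- the ideal is stable under `keep` -/
lemma keep_mem (f : MvPolynomial σ K) (hf : f ∈ ideal K A) (P : σ → Prop) [DecidablePred P] :
    keep P f ∈ ideal K A := by
  rw [mem_ideal] at hf ⊢
  intro a ha
  apply hf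
  rw [mem_support_iff, coeff_keep] at ha
  rw [mem_support_iff]
  intro h
  apply ha
  rw [h]
  split_ifs <;> rfl

/-- if `x_i (1 - u)` lies in the ideal for a variable, then `u` has constant term `1` -/
lemma const_of_mem (h : MvPolynomial σ K) (i : σ) (hi : (∃ j, A j ∧ j ≠ i) ∧ (∃ j, ¬ A j ∧ j ≠ i))
    (hm : X i * h ∈ ideal K A) : coeff 0 h = 0 := by
  by_contra h0
  have h1 := (mem_ideal A _).1 hm (Finsupp.single i 1 + 0) (by
    rw [mem_support_iff, coeff_X_mul]; exact h0)
  rw [add_zero] at h1
  obtain ⟨⟨j, hj, hji⟩, l, hl, hli⟩ := hi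
  rcases h1 with h1 | h1 | ⟨a, b, ha, hb, h2, h3⟩
  · exact h1 j hj (by rw [Finsupp.single_apply, if_neg (Ne.symm hji)])
  · exact h1 l hl (by rw [Finsupp.single_apply, if_neg (Ne.symm hli)])
  · rw [Finsupp.single_apply] at h2 h3
    split_ifs at h2 h3 with h4 h5
    · exact hb (h5 ▸ h4 ▸ ha)
    all_goals simp_all

/-- there are no two elements without constant term forming a regular sequence -/
lemma no_two (hA : ∃ i j, A i ∧ A j ∧ i ≠ j) (hB : ∃ i j, ¬ A i ∧ ¬ A j ∧ i ≠ j)
    (f g : MvPolynomial σ K) (hf : coeff 0 f = 0) (hg : coeff 0 g = 0)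
    (h1 : ∀ a, f * a ∈ ideal K A → a ∈ ideal K A)
    (h2 : ∀ a b, g * a - f * b ∈ ideal K A → ∃ c, a - f * c ∈ ideal K A) : False := by
  have hIc : ideal K (fun i => ¬ A i) = ideal K A := by
    ext q
    rw [mem_ideal, mem_ideal]
    exact forall₂_congr fun a _ => bad_compl A a
  set fA := keep A f with hfA
  set fB := keep (fun i => ¬ A i) f with hfB
  set gA := keep A g with hgA
  set gB := keep (fun i => ¬ A i) g with hgB
  have ef := decomp A f hf
  have eg := decomp A g hg
  rw [← hfA, ← hfB] at ef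
  rw [← hgA, ← hgB] at eg
  have m1 : fA * gB ∈ ideal K A := mixed A f g hf hg
  have m2 : gA * fB ∈ ideal K A := mixed A g f hg hf
  -- `g fA` lies in `I + (f)`
  obtain ⟨h, hh⟩ := h2 fA gA (by
    have : g * fA - f * gA = (g - gA - gB) * fA - (f - fA - fB) * gA + fA * gB - gA * fB := by ring
    rw [this]
    exact Ideal.sub_mem _ (Ideal.add_mem _ (Ideal.sub_mem _ (Ideal.mul_mem_right _ _ eg)
      (Ideal.mul_mem_right _ _ ef)) m1) m2)
  -- so `(1 - h) fA - h fB ∈ I`
  have h3 : (1 - h) * fA - h * fB ∈ ideal K A := by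
    have : (1 - h) * fA - h * fB = (fA - f * h) + (f - fA - fB) * h := by ring
    rw [this]
    exact Ideal.add_mem _ hh (Ideal.mul_mem_right _ _ ef)
  obtain ⟨i, i', hi, hi', hii⟩ := hA
  obtain ⟨j, j', hj, hj', hjj⟩ := hB
  have kk : ∀ (P : σ → Prop) [DecidablePred P] (q : MvPolynomial σ K), keep P (keep P q) = keep P q := by
    intro P _ q
    ext a
    rw [coeff_keep, coeff_keep]
    split_ifs <;> rfl
  have kA0 : keep A fB = 0 := by
    ext a
    rw [hfB, coeff_keep, coeff_keep, coeff_zero]
    split_ifs with h5 h6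
    · have : a = 0 := by
        ext l
        by_contra hl
        exact h6 l hl (h5 l hl)
      rw [this, hf]
    · rfl
    · rfl
  have kB0 : keep (fun i => ¬ A i) fA = 0 := by
    ext a
    rw [hfA, coeff_keep, coeff_keep, coeff_zero]
    split_ifs with h5 h6
    · have : a = 0 := by
        ext l
        by_contra hl
        exact h5 l hl (h6 l hl)
      rw [this, hf]
    · rfl
    · rfl
  -- apply the two restrictions
  have h4 := keep_mem A _ h3 A
  rw [map_sub, map_mul, map_mul, kA0, mul_zero, sub_zero, map_sub, map_one, hfA, kk, ← hfA] at h4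
  have h5 := keep_mem A _ h3 (fun i => ¬ A i)
  rw [map_sub, map_mul, map_mul, kB0, mul_zero, zero_sub, hfB, kk, ← hfB] at h5
  -- regularity of f
  have hXi : X i * fB ∈ ideal K A := by
    have := mixed A (X i) f (by simp) hf
    rw [← hfB] at this
    simpa [keep, hi] using this
  have hXj : fA * X j ∈ ideal K A := by
    have := mixed A f (X j) hf (by simp)
    rw [← hfA] at this
    simpa [keep, hj] using this
  have h6 : X i * (1 - keep A h) ∈ ideal K A := by
    apply h1
    have : f * (X i * (1 - keep A h)) = (f - fA - fB) * (X i * (1 - keep A h)) +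
      (1 - keep A h) * fA * X i + X i * fB * (1 - keep A h) := by ring
    rw [this]
    exact Ideal.add_mem _ (Ideal.add_mem _ (Ideal.mul_mem_right _ _ ef)
      (Ideal.mul_mem_right _ _ h4)) (Ideal.mul_mem_right _ _ hXi)
  have h7 : X j * keep (fun i => ¬ A i) h ∈ ideal K A := by
    apply h1
    have : f * (X j * keep (fun i => ¬ A i) h) = (f - fA - fB) * (X j * keep (fun i => ¬ A i) h) +
      fA * X j * keep (fun i => ¬ A i) h + -(-(keep (fun i => ¬ A i) h * fB)) * X j := by ring
    rw [this]
    exact Ideal.add_mem _ (Ideal.add_mem _ (Ideal.mul_mem_right _ _ ef)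
      (Ideal.mul_mem_right _ _ hXj)) (Ideal.mul_mem_right _ _ (Ideal.neg_mem_iff _ |>.2 h5))
  have c1 := const_of_mem A _ i ⟨⟨i', hi', Ne.symm hii⟩, ⟨j, hj, fun h => hj (h ▸ hi)⟩⟩ h6
  have c2 := const_of_mem A _ j ⟨⟨i, hi, fun h => hj (h ▸ hi)⟩, ⟨j', hj', Ne.symm hjj⟩⟩ h7
  rw [coeff_sub, coeff_keep, if_pos (by simp), coeff_zero_one] at c1
  rw [coeff_keep, if_pos (by simp)] at c2
  rw [c2, sub_zero] at c1
  exact one_ne_zero c1

end general

lemma coeff_zero_of_mem {K : Type*} [Field K] {n : ℕ} (f : MvPolynomial (Fin n) K)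
    (hf : f ∈ Ideal.span (Set.range (X : Fin n → MvPolynomial (Fin n) K))) : coeff 0 f = 0 := by
  by_contra h
  rw [← Set.image_univ, mem_ideal_span_X_image] at hf
  obtain ⟨i, -, hi⟩ := hf 0 (mem_support_iff.2 h)
  exact hi rfl

lemma depth_le {K : Type*} [Field K] {n : ℕ} (A : Fin n → Prop) [DecidablePred A]
    (hA : ∃ i j, A i ∧ A j ∧ i ≠ j) (hB : ∃ i j, ¬ A i ∧ ¬ A j ∧ i ≠ j) :
    depthQuot (ideal K A) ≤ 1 := by
  unfold depthQuot
  refine iSup₂_le fun rs hrs => ?_
  obtain ⟨hm, hreg⟩ := hrs
  match rs, hm, hreg with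
  | [], _, _ => simp
  | [_], _, _ => simp
  | f :: g :: rest, hm, hreg =>
    exfalso
    have hw := hreg.toIsWeaklyRegular
    rw [RingTheory.Sequence.isWeaklyRegular_cons_iff,
      RingTheory.Sequence.isWeaklyRegular_cons_iff] at hw
    obtain ⟨hf, hg, -⟩ := hw
    refine no_two A hA hB f g (coeff_zero_of_mem f (hm f (by simp)))
      (coeff_zero_of_mem g (hm g (by simp))) (fun a ha => ?_) (fun a b hab => ?_)
    · have : f • (Ideal.Quotient.mk (ideal K A) a) = f • (0 : MvPolynomial (Fin n) K ⧸ ideal K A) := by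
        rw [smul_zero]
        exact Ideal.Quotient.eq_zero_iff_mem.2 ha
      exact Ideal.Quotient.eq_zero_iff_mem.1 (hf this)
    · have h0 : g • (Submodule.Quotient.mk (Ideal.Quotient.mk (ideal K A) a) :
          QuotSMulTop f (MvPolynomial (Fin n) K ⧸ ideal K A)) =
          g • (0 : QuotSMulTop f (MvPolynomial (Fin n) K ⧸ ideal K A)) := by
        rw [smul_zero, ← Submodule.Quotient.mk_smul, Submodule.Quotient.mk_eq_zero,
          Submodule.mem_smul_pointwise_iff_exists]
        refine ⟨Ideal.Quotient.mk (ideal K A) b, trivial, ?_⟩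
        have : Ideal.Quotient.mk (ideal K A) (g * a) = Ideal.Quotient.mk (ideal K A) (f * b) :=
          Ideal.Quotient.eq.2 hab
        exact this.symm
      have h1 := hg h0
      rw [Submodule.Quotient.mk_eq_zero, Submodule.mem_smul_pointwise_iff_exists] at h1
      obtain ⟨c, -, hc⟩ := h1
      obtain ⟨c, rfl⟩ := Ideal.Quotient.mk_surjective c
      refine ⟨c, ?_⟩
      rw [← Ideal.Quotient.eq]
      exact hc.symm

/-- For every field `K` and every `d ≥ 2` there is a squarefree monomial ideal `I` of a polynomial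
ring over `K` with `depth (R / I) ≤ 1` and `v(I) = d`. -/
theorem result (K : Type*) [Field K] (d : ℕ) (hd : 2 ≤ d) :
    ∃ (n : ℕ) (I : Ideal (MvPolynomial (Fin n) K)),
      IsSquarefreeMonomialIdeal I ∧ depthQuot I ≤ 1 ∧ vNumber I = d := by
  classical
  let A : Fin ((d + 1) + (d + 1)) → Prop := fun i => i.1 < d + 1
  have hA : (Finset.univ.filter A).card = d + 1 := by
    rw [Fin.card_filter_val_lt]
    omega
  have hB : (Finset.univ.filter fun i => ¬ A i).card = d + 1 := by
    have := Finset.card_filter_add_card_filter_not (s := Finset.univ) A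
    rw [hA, Finset.card_univ, Fintype.card_fin] at this
    omega
  have hA2 : ∃ i j, A i ∧ A j ∧ i ≠ j :=
    ⟨⟨0, by omega⟩, ⟨1, by omega⟩, by simp [A], by simp [A]; omega, by simp⟩
  have hB2 : ∃ i j, ¬ A i ∧ ¬ A j ∧ i ≠ j :=
    ⟨⟨d + 1, by omega⟩, ⟨d + 2, by omega⟩, by simp [A], by simp [A], by simp⟩
  have hBe : ∃ j, ¬ A j := by obtain ⟨i, _, hi, _⟩ := hB2; exact ⟨i, hi⟩
  refine ⟨_, ideal K A, ⟨?_, gens A, gens_le A, rfl⟩, depth_le A hA2 hB2, ?_⟩
  · intro h
    have h1 := (mem_ideal A (1 : MvPolynomial _ K)).1 (by rw [h]; trivial) 0 (by simp)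
    rcases h1 with h1 | h1 | ⟨i, j, hi, hj, h2, h3⟩
    · obtain ⟨i, _, hi, _⟩ := hA2
      exact h1 i hi rfl
    · obtain ⟨i, hi⟩ := hBe
      exact h1 i hi rfl
    · exact h2 rfl
  · apply le_antisymm
    · obtain ⟨f, hf, p, hp, hpf⟩ := upper (K := K) A hd hA hBe
      refine iInf₂_le d ⟨f, hf, p, ⟨hp, Ideal.Quotient.mk (ideal K A) f, ?_⟩, hpf⟩
      have : Submodule.colon (⊥ : Submodule (MvPolynomial _ K) (MvPolynomial _ K ⧸ ideal K A))
          {Ideal.Quotient.mk (ideal K A) f} = p := by
        ext g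
        rw [Submodule.mem_colon_singleton, Submodule.mem_bot, hpf]
        exact Ideal.Quotient.eq_zero_iff_mem
      rw [this, hp.radical]
    · refine le_iInf₂ fun e he => ?_
      obtain ⟨f, hf, p, hp, hpf⟩ := he
      exact_mod_cast lower A hA hB f hf p hp.isPrime hpf

end Pool.Agent.Results.MP_d06a13_ag.ExceedsDepth
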